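import Mathlib
import Pool.Agent.H418R3.GurDefs

/-!
A rational seminorm on the rational finitely supported sequences is the restriction of a seminorm
on the real ones.
-/

set_option autoImplicit false

namespace Pool.Agent.H967GU

open Topology Filter Pool.Agent.H418R3.Gur

theorem rat_add (u v : ℕ →₀ ℚ) : rat (u + v) = rat u + rat v := by
  ext n
  simp [rat]

theorem rat_smul (q : ℚ) (v : ℕ →₀ ℚ) : rat (q • v) = (q : ℝ) • rat v := by
  ext n
  simp [rat]

theorem rat_zero : rat 0 = 0 := by
  ext n
  simp [rat]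

section

variable (w : ℕ → ℝ)

/-- weighted sum of absolute values -/
noncomputable def cc (x : ℕ →₀ ℝ) : ℝ := x.sum fun n a => |a| * w n

variable {w} (hw : ∀ n, 0 ≤ w n)
include hw

theorem cc_eq {x : ℕ →₀ ℝ} {S : Finset ℕ} (h : x.support ⊆ S) : cc w x = ∑ n ∈ S, |x n| * w n := by
  unfold cc
  exact Finsupp.sum_of_support_subset x h _ (fun i _ => by rw [abs_zero, zero_mul])

theorem cc_nonneg (x : ℕ →₀ ℝ) : 0 ≤ cc w x := by
  rw [cc_eq hw (Finset.Subset.refl _)]
  exact Finset.sum_nonneg fun n _ => mul_nonneg (abs_nonneg _) (hw n)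

theorem cc_add (x y : ℕ →₀ ℝ) : cc w (x + y) ≤ cc w x + cc w y := by
  classical
  have h1 : x.support ⊆ x.support ∪ y.support := Finset.subset_union_left
  have h2 : y.support ⊆ x.support ∪ y.support := Finset.subset_union_right
  have h3 : (x + y).support ⊆ x.support ∪ y.support := Finsupp.support_add
  rw [cc_eq hw h1, cc_eq hw h2, cc_eq hw h3, ← Finset.sum_add_distrib]
  refine Finset.sum_le_sum fun n _ => ?_
  rw [← add_mul]
  exact mul_le_mul_of_nonneg_right (by rw [Finsupp.add_apply]; exact abs_add_le _ _) (hw n)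

theorem cc_smul (a : ℝ) (x : ℕ →₀ ℝ) : cc w (a • x) = |a| * cc w x := by
  rw [cc_eq hw (Finset.Subset.refl x.support), cc_eq hw (Finsupp.support_smul (b := a) (g := x)),
    Finset.mul_sum]
  refine Finset.sum_congr rfl fun n _ => ?_
  rw [Finsupp.smul_apply, smul_eq_mul, abs_mul, mul_assoc]

end

/-- extension of rational seminorms -/
theorem exists_ext (p : (ℕ →₀ ℚ) → ℝ) (h1 : ∀ u v, p (u + v) ≤ p u + p v)
    (h2 : ∀ (q : ℚ) v, p (q • v) = |(q : ℝ)| * p v) : ∃ μ : PN, ∀ v, μ (rat v) = p v := by
  have hp0 : p 0 = 0 := by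
    have := h2 0 0
    simpa using this
  have hpn : ∀ v, 0 ≤ p v := by
    intro v
    have h3 := h1 v ((-1 : ℚ) • v)
    have h4 : v + (-1 : ℚ) • v = 0 := by
      rw [neg_smul, one_smul, add_neg_cancel]
    rw [h4, hp0, h2] at h3
    simp at h3
    linarith
  set w : ℕ → ℝ := fun n => p (Finsupp.single n 1) with hw
  have hwn : ∀ n, 0 ≤ w n := fun n => hpn _
  have hpc : ∀ v, p v ≤ cc w (rat v) := by
    intro v
    have h3 : v = ∑ n ∈ v.support, Finsupp.single n (v n) := by
      conv_lhs => rw [← Finsupp.sum_single v]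
      rfl
    have h4 := Finset.le_sum_of_subadditive p hp0.le h1 v.support (fun n => Finsupp.single n (v n))
    rw [← h3] at h4
    have h5 : (rat v).support ⊆ v.support := Finsupp.support_mapRange
    rw [cc_eq hwn h5]
    refine h4.trans (le_of_eq (Finset.sum_congr rfl fun n _ => ?_))
    have h6 : (Finsupp.single n (v n) : ℕ →₀ ℚ) = (v n) • Finsupp.single n 1 := by
      rw [Finsupp.smul_single, smul_eq_mul, mul_one]
    rw [h6, h2]
    congr 2
  set m : (ℕ →₀ ℝ) → ℝ := fun x => ⨅ v : ℕ →₀ ℚ, (p v + cc w (x - rat v)) with hm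
  have hbdd : ∀ x, BddBelow (Set.range fun v : ℕ →₀ ℚ => p v + cc w (x - rat v)) := by
    intro x
    refine ⟨0, ?_⟩
    rintro _ ⟨v, rfl⟩
    exact add_nonneg (hpn v) (cc_nonneg hwn _)
  have hle : ∀ x v, m x ≤ p v + cc w (x - rat v) := fun x v => ciInf_le (hbdd x) v
  have hrat : ∀ v, m (rat v) = p v := by
    intro v
    apply le_antisymm
    · refine (hle _ v).trans (le_of_eq ?_)
      have : cc w (rat v - rat v) = 0 := by
        rw [sub_self, cc_eq hwn (Finset.Subset.refl _)]
        simp
      rw [this, add_zero]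
    · apply le_ciInf
      intro u
      have h3 : v = u + (v - u) := by abel
      have h4 := h1 u (v - u)
      rw [← h3] at h4
      have h5 : rat (v - u) = rat v - rat u := by
        ext n
        simp [rat]
      have h6 := hpc (v - u)
      rw [h5] at h6
      linarith
  have hadd : ∀ x y, m (x + y) ≤ m x + m y := by
    intro x y
    apply le_ciInf_add_ciInf
    intro u v
    refine (hle _ (u + v)).trans ?_
    have h3 : x + y - rat (u + v) = (x - rat u) + (y - rat v) := by
      rw [rat_add]
      abel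
    rw [h3]
    have h4 := cc_add hwn (x - rat u) (y - rat v)
    have h5 := h1 u v
    linarith
  have hlip : ∀ x y, m x ≤ m y + cc w (x - y) := by
    intro x y
    have h3 : m x - cc w (x - y) ≤ m y := by
      apply le_ciInf
      intro v
      have h4 := hle x v
      have h5 : x - rat v = (y - rat v) + (x - y) := by abel
      have h6 := cc_add hwn (y - rat v) (x - y)
      rw [← h5] at h6
      linarith
    linarith
  have hq1 : ∀ (q : ℚ) x, m ((q : ℝ) • x) ≤ |(q : ℝ)| * m x := by
    intro q x
    rw [hm]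
    simp only
    rw [Real.mul_iInf_of_nonneg (abs_nonneg _)]
    apply le_ciInf
    intro v
    refine (hle _ (q • v)).trans (le_of_eq ?_)
    rw [h2, rat_smul, ← smul_sub, cc_smul hwn]
    ring
  have hq : ∀ (q : ℚ) x, m ((q : ℝ) • x) = |(q : ℝ)| * m x := by
    intro q x
    apply le_antisymm (hq1 q x)
    rcases eq_or_ne q 0 with rfl | h0
    · have h3 := hrat 0
      rw [rat_zero, hp0] at h3
      simp [h3]
    · have h3 := hq1 q⁻¹ ((q : ℝ) • x)
      have h0' : (q : ℝ) ≠ 0 := by exact_mod_cast h0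
      rw [smul_smul] at h3
      have h4 : ((q⁻¹ : ℚ) : ℝ) * (q : ℝ) = 1 := by
        push_cast
        exact inv_mul_cancel₀ h0'
      rw [h4, one_smul] at h3
      have h5 : |((q⁻¹ : ℚ) : ℝ)| = |(q : ℝ)|⁻¹ := by
        push_cast
        exact abs_inv _
      rw [h5] at h3
      have h6 : 0 < |(q : ℝ)| := abs_pos.2 h0'
      calc |(q : ℝ)| * m x ≤ |(q : ℝ)| * (|(q : ℝ)|⁻¹ * m ((q : ℝ) • x)) :=
            mul_le_mul_of_nonneg_left h3 h6.le
        _ = m ((q : ℝ) • x) := by rw [← mul_assoc, mul_inv_cancel₀ h6.ne', one_mul]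
  have hreal : ∀ (a : ℝ) x, m (a • x) = ‖a‖ * m x := by
    intro a x
    have hc1 : Continuous fun a : ℝ => m (a • x) := by
      rw [Metric.continuous_iff]
      intro b ε hε
      have hC := cc_nonneg hwn x
      refine ⟨ε / (cc w x + 1), by positivity, fun a' ha' => ?_⟩
      have h3 : ∀ s t : ℝ, m (s • x) - m (t • x) ≤ |s - t| * cc w x := by
        intro s t
        have h4 := hlip (s • x) (t • x)
        rw [← sub_smul, cc_smul hwn] at h4
        linarith
      have h4 := h3 a' b
      have h5 := h3 b a'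
      rw [Real.dist_eq] at ha' ⊢
      rw [abs_sub_comm b a'] at h5
      rw [lt_div_iff₀ (by positivity)] at ha'
      have h6 := abs_nonneg (a' - b)
      rw [abs_lt]
      constructor <;> nlinarith
    have hc2 : Continuous fun a : ℝ => ‖a‖ * m x := by fun_prop
    have h3 := Rat.denseRange_cast (𝕜 := ℝ) |>.equalizer hc1 hc2 (by
      funext q
      simp only [Function.comp, Real.norm_eq_abs]
      exact hq q x)
    exact congrFun h3 a
  exact ⟨Seminorm.of m hadd hreal, hrat⟩

end Pool.Agent.H967GU
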