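import Mathlib
import Pool.Agent.H418R3.GurFinal
import Pool.Agent.H967GU.Ext

/-!
Isomorphism classes of separable infinite-dimensional Banach spaces are analytic.
-/

set_option autoImplicit false

namespace Pool.Agent.H967GU

open Topology Filter MeasureTheory Pool.Agent.H418R3.Gur TopologicalSpace

/-- the vector with the entries `t` on `S` -/
noncomputable def vS (S : Finset ℕ) (t : S → ℝ) : ℕ →₀ ℝ := ∑ n : S, Finsupp.single (n : ℕ) (t n)

theorem vS_rat (S : Finset ℕ) (q : S → ℚ) :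
    vS S (fun n => (q n : ℝ)) = rat (∑ n : S, Finsupp.single (n : ℕ) (q n)) := by
  classical
  ext m
  simp only [vS, rat, Finsupp.mapRange_apply, Finsupp.finsetSum_apply, Finsupp.single_apply]
  push_cast
  refine Finset.sum_congr rfl fun n _ => ?_
  split_ifs <;> simp

theorem vS_self (x : ℕ →₀ ℝ) : vS x.support (fun n => x n) = x := by
  have h1 : vS x.support (fun n => x n) = ∑ n ∈ x.support, Finsupp.single n (x n) := by
    unfold vS
    exact Finset.sum_coe_sort x.support (fun n => Finsupp.single n (x n))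
  rw [h1]
  exact Finsupp.sum_single x

theorem dense_q (S : Finset ℕ) : DenseRange (fun (q : S → ℚ) (n : S) => (q n : ℝ)) :=
  DenseRange.piMap (fun _ => Rat.denseRange_cast)

theorem continuous_vS {F : Type*} [SeminormedAddCommGroup F] [NormedSpace ℝ F]
    (L : (ℕ →₀ ℝ) →ₗ[ℝ] F) (S : Finset ℕ) : Continuous fun t : S → ℝ => L (vS S t) := by
  have h1 : (fun t : S → ℝ => L (vS S t)) =
      fun t => ∑ n : S, (t n) • L (Finsupp.single (n : ℕ) 1) := by
    funext t
    unfold vS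
    rw [map_sum]
    refine Finset.sum_congr rfl fun n _ => ?_
    rw [← map_smul, Finsupp.smul_single, smul_eq_mul, mul_one]
  rw [h1]
  fun_prop

/-- an inequality between seminorms may be checked on rational vectors -/
theorem rat_ineq {F₁ F₂ : Type*} [SeminormedAddCommGroup F₁] [NormedSpace ℝ F₁]
    [SeminormedAddCommGroup F₂] [NormedSpace ℝ F₂] (L₁ : (ℕ →₀ ℝ) →ₗ[ℝ] F₁)
    (L₂ : (ℕ →₀ ℝ) →ₗ[ℝ] F₂) (K : ℝ) (h : ∀ v : ℕ →₀ ℚ, ‖L₁ (rat v)‖ ≤ K * ‖L₂ (rat v)‖)
    (x : ℕ →₀ ℝ) : ‖L₁ x‖ ≤ K * ‖L₂ x‖ := by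
  rw [← vS_self x]
  generalize (fun n : x.support => x n) = t
  induction t using (dense_q x.support).induction_on with
  | hp =>
    exact isClosed_le (continuous_vS L₁ _).norm (continuous_const.mul (continuous_vS L₂ _).norm)
  | ih q =>
    rw [vS_rat]
    exact h _

/-- rational vectors are dense in the coded space -/
theorem rat_dense {F : Type*} [SeminormedAddCommGroup F] [NormedSpace ℝ F]
    (L : (ℕ →₀ ℝ) →ₗ[ℝ] F) (hL : DenseRange L) :
    DenseRange fun v : ℕ →₀ ℚ => L (rat v) := by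
  intro y
  have h1 : ∀ x, L x ∈ closure (Set.range fun v : ℕ →₀ ℚ => L (rat v)) := by
    intro x
    rw [← vS_self x]
    generalize (fun n : x.support => x n) = t
    induction t using (dense_q x.support).induction_on with
    | hp => exact isClosed_closure.preimage (continuous_vS L _)
    | ih q =>
      rw [vS_rat]
      exact subset_closure ⟨_, rfl⟩
  have h2 : closure (Set.range L) ⊆ closure (Set.range fun v : ℕ →₀ ℚ => L (rat v)) := by
    apply closure_minimal _ isClosed_closure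
    rintro _ ⟨x, rfl⟩
    exact h1 x
  exact h2 (hL y)

section

variable (G : Type) [NormedAddCommGroup G] [NormedSpace ℝ G]

/-- the linear map sending the unit vectors to the vectors `g n` -/
noncomputable def cmb (g : ℕ → G) : (ℕ →₀ ℝ) →ₗ[ℝ] G := Finsupp.linearCombination ℝ g

theorem continuous_cmb (x : ℕ →₀ ℝ) : Continuous fun g : ℕ → G => cmb G g x := by
  unfold cmb
  simp only [Finsupp.linearCombination_apply, Finsupp.sum]
  fun_prop

/-- data describing an isomorphism -/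
abbrev WW : Type := ((ℕ →₀ ℚ) → ℝ) × (ℕ → G) × ℕ

variable [SeparableSpace G]

/-- the conditions on the data -/
def CC (D : Set ((ℕ →₀ ℚ) → ℝ)) : Set (WW G) :=
  {w | (∀ u v, w.1 (u + v) ≤ w.1 u + w.1 v) ∧ (∀ (q : ℚ) v, w.1 (q • v) = |(q : ℝ)| * w.1 v) ∧
    (∀ v, w.1 v ≤ w.2.2 * ‖cmb G w.2.1 (rat v)‖) ∧ (∀ v, ‖cmb G w.2.1 (rat v)‖ ≤ w.2.2 * w.1 v) ∧
    (∀ m k : ℕ, ∃ v, ‖denseSeq G m - cmb G w.2.1 (rat v)‖ < 1 / ((k : ℝ) + 1)) ∧ w.1 ∈ D}

theorem measurable_CC [CompleteSpace G] {D : Set ((ℕ →₀ ℚ) → ℝ)}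
    (hD : @MeasurableSet _ (borel ((ℕ →₀ ℚ) → ℝ)) D) :
    @MeasurableSet _ (borel (WW G)) (CC G D) := by
  let : MeasurableSpace (WW G) := borel (WW G)
  have : BorelSpace (WW G) := ⟨rfl⟩
  have c1 : ∀ v : ℕ →₀ ℚ, Continuous fun w : WW G => w.1 v :=
    fun v => (continuous_apply v).comp continuous_fst
  have c2 : ∀ v : ℕ →₀ ℚ, Continuous fun w : WW G => cmb G w.2.1 (rat v) :=
    fun v => (continuous_cmb G (rat v)).comp (continuous_fst.comp continuous_snd)
  have c3 : Continuous fun w : WW G => ((w.2.2 : ℕ) : ℝ) :=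
    continuous_of_discreteTopology.comp (continuous_snd.comp continuous_snd)
  have e : CC G D = (⋂ u, ⋂ v, {w : WW G | w.1 (u + v) ≤ w.1 u + w.1 v}) ∩
      (⋂ q : ℚ, ⋂ v, {w : WW G | w.1 (q • v) = |(q : ℝ)| * w.1 v}) ∩
      (⋂ v, {w : WW G | w.1 v ≤ w.2.2 * ‖cmb G w.2.1 (rat v)‖}) ∩
      (⋂ v, {w : WW G | ‖cmb G w.2.1 (rat v)‖ ≤ w.2.2 * w.1 v}) ∩
      (⋂ m : ℕ, ⋂ k : ℕ, ⋃ v, {w : WW G | ‖denseSeq G m - cmb G w.2.1 (rat v)‖ <
        1 / ((k : ℝ) + 1)}) ∩ (Prod.fst ⁻¹' D) := by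
    ext w
    simp only [CC, Set.mem_ofPred_eq, Set.mem_inter_iff, Set.mem_iInter, Set.mem_iUnion,
      Set.mem_preimage, and_assoc]
  rw [e]
  have hD' : MeasurableSet (Prod.fst ⁻¹' D : Set (WW G)) := by
    let : MeasurableSpace ((ℕ →₀ ℚ) → ℝ) := borel _
    have : BorelSpace ((ℕ →₀ ℚ) → ℝ) := ⟨rfl⟩
    exact (continuous_fst (X := (ℕ →₀ ℚ) → ℝ) (Y := (ℕ → G) × ℕ)).measurable hD
  refine (((((?_ : MeasurableSet _).inter ?_).inter ?_).inter ?_).inter ?_).inter hD'
  · exact (isClosed_iInter fun u => isClosed_iInter fun v =>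
      isClosed_le (c1 _) ((c1 u).add (c1 v))).measurableSet
  · exact (isClosed_iInter fun q => isClosed_iInter fun v =>
      isClosed_eq (c1 _) (continuous_const.mul (c1 v))).measurableSet
  · exact (isClosed_iInter fun v => isClosed_le (c1 v) (c3.mul (c2 v).norm)).measurableSet
  · exact (isClosed_iInter fun v => isClosed_le (c2 v).norm (c3.mul (c1 v))).measurableSet
  · exact MeasurableSet.iInter fun m => MeasurableSet.iInter fun k =>
      (isOpen_iUnion fun v => isOpen_lt (continuous_const.sub (c2 v)).norm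
        continuous_const).measurableSet

/-- the isomorphism attached to the data -/
theorem iso_of_data [CompleteSpace G] {D : Set ((ℕ →₀ ℚ) → ℝ)} {w : WW G} (hw : w ∈ CC G D)
    {μ : PN} (hμ : ∀ v, μ (rat v) = w.1 v) : Nonempty (XX μ ≃L[ℝ] G) := by
  obtain ⟨-, -, h3, h4, h5, -⟩ := hw
  set L := cmb G w.2.1 with hL
  have hu : ∀ x, ‖L x‖ ≤ w.2.2 * μ x := by
    intro x
    have := rat_ineq L (ic μ) w.2.2 (fun v => by rw [norm_ic, hμ]; exact h4 v) x
    rwa [norm_ic] at this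
  have hl : ∀ x, μ x ≤ w.2.2 * ‖L x‖ := by
    intro x
    have := rat_ineq (ic μ) L w.2.2 (fun v => by rw [norm_ic, hμ]; exact h3 v) x
    rwa [norm_ic] at this
  set T : XX μ →L[ℝ] G := lift μ L with hT
  have hTi : ∀ x, T (ic μ x) = L x := fun x => lift_ic hu x
  have hlow : ∀ x : XX μ, ‖x‖ ≤ w.2.2 * ‖T x‖ := by
    intro x
    induction x using (dense_ic μ).induction_on with
    | hp => exact isClosed_le continuous_norm (continuous_const.mul T.continuous.norm)
    | ih x => rw [norm_ic, hTi]; exact hl x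
  have hanti : AntilipschitzWith (Real.toNNReal (w.2.2 : ℝ)) T := by
    apply ContinuousLinearMap.antilipschitz_of_bound
    intro x
    rw [Real.coe_toNNReal _ (Nat.cast_nonneg _)]
    exact hlow x
  have hdense : DenseRange T := by
    intro y
    rw [Metric.mem_closure_iff]
    intro ε hε
    obtain ⟨_, ⟨m, rfl⟩, hm⟩ := Metric.mem_closure_iff.1 (denseRange_denseSeq G y) (ε / 2)
      (half_pos hε)
    obtain ⟨k, hk⟩ := exists_nat_one_div_lt (half_pos hε)
    obtain ⟨v, hv⟩ := h5 m k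
    refine ⟨T (ic μ (rat v)), ⟨_, rfl⟩, ?_⟩
    rw [hTi]
    have h6 : dist (denseSeq G m) (L (rat v)) < ε / 2 := by
      rw [dist_eq_norm]
      exact hv.trans hk
    linarith [dist_triangle y (denseSeq G m) (L (rat v))]
  have hclosed : IsClosed (Set.range T) := hanti.isClosed_range T.uniformContinuous
  have hsurj : Function.Surjective T := by
    rw [← Set.range_eq_univ, ← hclosed.closure_eq]
    exact hdense.closure_range
  exact ⟨ContinuousLinearEquiv.ofBijective T (LinearMap.ker_eq_bot.2 hanti.injective)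
    (LinearMap.range_eq_top.2 hsurj)⟩

/-- the data attached to an isomorphism -/
theorem data_of_iso [CompleteSpace G] {D : Set ((ℕ →₀ ℚ) → ℝ)} {μ : PN}
    (T : XX μ ≃L[ℝ] G) (hD : (fun v => μ (rat v)) ∈ D) :
    ∃ w ∈ CC G D, ∀ v, μ (rat v) = w.1 v := by
  set g : ℕ → G := fun n => T (ic μ (Finsupp.single n 1)) with hg
  have hL : ∀ x, cmb G g x = T (ic μ x) := by
    intro x
    have h1 : cmb G g = (T : XX μ →L[ℝ] G).toLinearMap.comp (ic μ) := by
      apply Finsupp.lhom_ext'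
      intro n
      apply LinearMap.ext_ring
      simp [cmb, hg]
    rw [h1]
    rfl
  obtain ⟨K, hK⟩ := exists_nat_ge (max ‖(T : XX μ →L[ℝ] G)‖ ‖(T.symm : G →L[ℝ] XX μ)‖)
  have hK1 : ‖(T : XX μ →L[ℝ] G)‖ ≤ K := (le_max_left _ _).trans hK
  have hK2 : ‖(T.symm : G →L[ℝ] XX μ)‖ ≤ K := (le_max_right _ _).trans hK
  refine ⟨(fun v => μ (rat v), g, K), ⟨?_, ?_, ?_, ?_, ?_, hD⟩, fun v => rfl⟩
  · intro u v
    simp only
    rw [rat_add]
    exact map_add_le_add μ _ _
  · intro q v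
    simp only
    rw [rat_smul, map_smul_eq_mul, Real.norm_eq_abs]
  · intro v
    simp only
    rw [hL, ← norm_ic]
    have h1 := (T.symm : G →L[ℝ] XX μ).le_opNorm (T (ic μ (rat v)))
    have h2 : (T.symm : G →L[ℝ] XX μ) (T (ic μ (rat v))) = ic μ (rat v) :=
      T.symm_apply_apply _
    rw [h2] at h1
    exact h1.trans (mul_le_mul_of_nonneg_right hK2 (norm_nonneg _))
  · intro v
    simp only
    rw [hL, ← norm_ic]
    exact ((T : XX μ →L[ℝ] G).le_opNorm _).trans (mul_le_mul_of_nonneg_right hK1 (norm_nonneg _))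
  · intro m k
    have h1 : DenseRange (cmb G g) := by
      have h2 : (cmb G g : (ℕ →₀ ℝ) → G) = T ∘ ic μ := funext hL
      rw [h2]
      exact T.surjective.denseRange.comp (dense_ic μ) T.continuous
    obtain ⟨_, ⟨v, rfl⟩, hv⟩ := Metric.mem_closure_iff.1 (rat_dense _ h1 (denseSeq G m))
      (1 / ((k : ℝ) + 1)) (by positivity)
    refine ⟨v, ?_⟩
    rw [dist_eq_norm] at hv
    exact hv

/-- isomorphism classes are analytic -/
theorem analytic_iso [CompleteSpace G] (J : Set PN) (D : Set ((ℕ →₀ ℚ) → ℝ))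
    (hD : @MeasurableSet _ (borel ((ℕ →₀ ℚ) → ℝ)) D)
    (hJ : ∀ μ : PN, Nonempty (XX μ ≃L[ℝ] G) → (μ ∈ J ↔ (fun v => μ (rat v)) ∈ D)) :
    AnalyticSet (isoClass J G) := by
  classical
  rcases Set.eq_empty_or_nonempty (isoClass J G) with h0 | ⟨μ₀, -⟩
  · rw [h0]
    exact analyticSet_empty
  have hA : AnalyticSet (CC G D) := by
    let : MeasurableSpace (WW G) := borel (WW G)
    have : BorelSpace (WW G) := ⟨rfl⟩
    exact MeasurableSet.analyticSet (measurable_CC G hD)
  let f : WW G → J := fun w =>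
    if h : ∃ μ : J, ∀ v, μ.1 (rat v) = w.1 v then h.choose else μ₀
  have hf : ∀ w ∈ CC G D, ∀ v, (f w).1 (rat v) = w.1 v := by
    intro w hw
    obtain ⟨μ, hμ⟩ := exists_ext w.1 hw.1 hw.2.1
    have hex : ∃ μ : J, ∀ v, μ.1 (rat v) = w.1 v := by
      refine ⟨⟨μ, ?_⟩, hμ⟩
      rw [hJ μ (iso_of_data G hw hμ)]
      have : (fun v => μ (rat v)) = w.1 := funext hμ
      rw [this]
      exact hw.2.2.2.2.2
    have h1 : f w = hex.choose := dif_pos hex
    rw [h1]
    exact hex.choose_spec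
  have hcont : ContinuousOn f (CC G D) := by
    rw [continuousOn_iff_continuous_domRestrict]
    rw [Topology.IsInducing.subtypeVal.continuous_iff]
    apply continuous_induced_rng.2
    have h1 : ((fun (μ : PN) (v : ℕ →₀ ℚ) => μ (rat v)) ∘ (Subtype.val ∘ (CC G D).domRestrict f)) =
        fun w : CC G D => w.1.1 := by
      funext w v
      exact hf w.1 w.2 v
    rw [h1]
    exact continuous_fst.comp continuous_subtype_val
  have himg : isoClass J G = f '' (CC G D) := by
    ext μ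
    constructor
    · rintro ⟨T⟩
      obtain ⟨w, hw, hμ⟩ := data_of_iso G (D := D) T ((hJ μ.1 ⟨T⟩).1 μ.2)
      refine ⟨w, hw, ?_⟩
      apply Subtype.ext
      ext x
      -- both seminorms agree on rational vectors
      have h1 : ∀ v, (f w).1 (rat v) = μ.1 (rat v) := fun v => by rw [hf w hw, hμ]
      have h2 := rat_ineq (ic (f w).1) (ic μ.1) 1 (fun v => by
        rw [norm_ic, norm_ic, one_mul, h1]) x
      have h3 := rat_ineq (ic μ.1) (ic (f w).1) 1 (fun v => by
        rw [norm_ic, norm_ic, one_mul, h1]) x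
      rw [norm_ic, norm_ic, one_mul] at h2 h3
      exact le_antisymm h2 h3
    · rintro ⟨w, hw, rfl⟩
      exact iso_of_data G hw (hf w hw)
  rw [himg]
  exact hA.image_of_continuousOn hcont

end

end Pool.Agent.H967GU
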