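import Mathlib
import Pool.Agent.H418R3.GurFinal

/-!
Every analytic subset of the Baire space is a continuous preimage of the isomorphism class of the
Gurarii space.
-/

set_option autoImplicit false

namespace Pool.Agent.H967GU

open Topology Filter MeasureTheory Pool.Agent.H418R3.Gur

open Classical in
/-- the tree of the attempts to solve `f y = x` -/
noncomputable def TR (f : (ℕ → ℕ) → (ℕ → ℕ)) (x : ℕ → ℕ) : List ℕ → Bool :=
  fun s => decide (∃ y : ℕ → ℕ, br y s.length = s ∧ ∀ k < s.length, f y k = x k)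

theorem TR_iff (f : (ℕ → ℕ) → (ℕ → ℕ)) (x : ℕ → ℕ) (s : List ℕ) :
    TR f x s = true ↔ ∃ y : ℕ → ℕ, br y s.length = s ∧ ∀ k < s.length, f y k = x k := by
  unfold TR
  simp only [decide_eq_true_eq]

theorem TR_mem {f : (ℕ → ℕ) → (ℕ → ℕ)} (hf : Continuous f) (x : ℕ → ℕ) :
    TR f x ∈ IF ↔ x ∈ Set.range f := by
  constructor
  · rintro ⟨b, hb⟩
    choose y hy1 hy2 using fun n => (TR_iff f x (br b n)).mp (hb n)
    have hlim : Tendsto y atTop (𝓝 b) := by
      rw [tendsto_pi_nhds]
      intro k
      apply tendsto_const_nhds.congr'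
      filter_upwards [eventually_gt_atTop k] with n hn
      have h1 := hy1 n
      rw [br_length] at h1
      exact (br_inj h1 k hn).symm
    have h2 : Tendsto (fun n => f (y n)) atTop (𝓝 (f b)) := (hf.tendsto b).comp hlim
    refine ⟨b, ?_⟩
    funext k
    rw [tendsto_pi_nhds] at h2
    refine tendsto_nhds_unique (h2 k) ?_
    apply tendsto_const_nhds.congr'
    filter_upwards [eventually_gt_atTop k] with n hn
    exact (hy2 n k (by rw [br_length]; exact hn)).symm
  · rintro ⟨y, rfl⟩
    refine ⟨y, fun n => ?_⟩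
    rw [TR_iff]
    exact ⟨y, by rw [br_length], fun k _ => rfl⟩

theorem continuous_TR (f : (ℕ → ℕ) → (ℕ → ℕ)) : Continuous (TR f) := by
  classical
  apply continuous_pi
  intro s
  let g : (Fin s.length → ℕ) → Bool := fun z =>
    decide (∃ y : ℕ → ℕ, br y s.length = s ∧ ∀ k : Fin s.length, f y k = z k)
  have hg : Continuous g := continuous_of_discreteTopology
  have hr : Continuous (fun (x : ℕ → ℕ) (k : Fin s.length) => x k) :=
    continuous_pi fun k => continuous_apply (k : ℕ)
  have h1 : (fun x => TR f x s) = fun x => g (fun k : Fin s.length => x k) := by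
    funext x
    show decide _ = decide _
    congr 1
    apply propext
    constructor
    · rintro ⟨y, hy, hy'⟩
      exact ⟨y, hy, fun k => hy' k k.2⟩
    · rintro ⟨y, hy, hy'⟩
      exact ⟨y, hy, fun k hk => hy' ⟨k, hk⟩⟩
  rw [h1]
  exact hg.comp hr

theorem hard {J : Set PN} (hJ : ∀ T, theta T ∈ J) (A : Set (ℕ → ℕ)) (hA : AnalyticSet A) :
    ∃ Φ : (ℕ → ℕ) → J, Continuous Φ ∧ Φ ⁻¹' (isoClass J (Sp uni.sn)) = A := by
  let th : (List ℕ → Bool) → J := fun T => ⟨theta T, hJ T⟩
  have hth : Continuous th := continuous_theta.subtype_mk hJ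
  have h2 : th ⁻¹' (isoClass J (Sp uni.sn)) = IF := by
    ext T
    constructor
    · intro hT
      by_contra hne
      exact theta_not_iso hne hT
    · intro hT
      exact theta_iso hT
  rw [AnalyticSet] at hA
  rcases hA with hA | ⟨f, hf, hr⟩
  · refine ⟨fun _ => th (fun _ => false), continuous_const, ?_⟩
    rw [hA, Set.eq_empty_iff_forall_notMem]
    intro x hx
    have h3 : (fun _ => false : List ℕ → Bool) ∈ IF := by
      rw [← h2]
      exact hx
    obtain ⟨b, hb⟩ := h3
    exact absurd (hb 0) (by simp)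
  · refine ⟨fun x => th (TR f x), hth.comp (continuous_TR f), ?_⟩
    ext x
    have h3 : x ∈ (fun x => th (TR f x)) ⁻¹' (isoClass J (Sp uni.sn)) ↔ TR f x ∈ IF := by
      rw [← h2]
      rfl
    rw [h3, TR_mem hf, hr]

end Pool.Agent.H967GU
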