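import Mathlib
import Pool.Agent.H967GU.Hard
import Pool.Agent.H967GU.Ana

/-!
The isomorphism class of the Gurarii space in the two coding spaces: analyticity, complements.
-/

set_option autoImplicit false

namespace Pool.Agent.H967GU

open Topology Filter MeasureTheory Pool.Agent.H418R3.Gur TopologicalSpace

/-- the rational form of the condition that `μ` is a norm -/
def DB : Set ((ℕ →₀ ℚ) → ℝ) :=
  {p | ∀ N : ℕ, ∃ k : ℕ, ∀ v : ℕ →₀ ℚ, v.support ⊆ Finset.range N → ∀ n, |(v n : ℝ)| ≤ k * p v}

theorem measurable_DB : @MeasurableSet _ (borel ((ℕ →₀ ℚ) → ℝ)) DB := by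
  let : MeasurableSpace ((ℕ →₀ ℚ) → ℝ) := borel _
  have : BorelSpace ((ℕ →₀ ℚ) → ℝ) := ⟨rfl⟩
  have e : DB = ⋂ N : ℕ, ⋃ k : ℕ, ⋂ v : ℕ →₀ ℚ, ⋂ _ : v.support ⊆ Finset.range N, ⋂ n : ℕ,
      {p : (ℕ →₀ ℚ) → ℝ | |(v n : ℝ)| ≤ k * p v} := by
    ext p
    simp only [DB, Set.mem_ofPred_eq, Set.mem_iInter, Set.mem_iUnion]
  rw [e]
  exact MeasurableSet.iInter fun N => MeasurableSet.iUnion fun k =>
    (isClosed_iInter fun v => isClosed_iInter fun _ => isClosed_iInter fun n =>
      isClosed_le continuous_const (continuous_const.mul (continuous_apply v))).measurableSet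

theorem vS_apply (S : Finset ℕ) (t : S → ℝ) (n : S) : vS S t n = t n := by
  classical
  unfold vS
  rw [Finsupp.finsetSum_apply, Finset.sum_eq_single n]
  · simp
  · intro m _ hm
    rw [Finsupp.single_apply, if_neg]
    intro h
    exact hm (Subtype.ext h)
  · intro h
    exact absurd (Finset.mem_univ n) h

theorem vS_of_support {S : Finset ℕ} {x : ℕ →₀ ℝ} (h : x.support ⊆ S) :
    vS S (fun n => x n) = x := by
  have h1 : vS S (fun n => x n) = ∑ n ∈ S, Finsupp.single n (x n) := by
    unfold vS
    exact Finset.sum_coe_sort S (fun n => Finsupp.single n (x n))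
  rw [h1]
  exact (Finsupp.sum_of_support_subset x h (fun n a => Finsupp.single n a)
    (fun i _ => Finsupp.single_zero i)).symm.trans (Finsupp.sum_single x)

/-- the linear map `t ↦ Σ t n e n` -/
noncomputable def vSL (S : Finset ℕ) : (S → ℝ) →ₗ[ℝ] (ℕ →₀ ℝ) where
  toFun := vS S
  map_add' s t := by
    unfold vS
    rw [← Finset.sum_add_distrib]
    refine Finset.sum_congr rfl fun n _ => ?_
    rw [← Finsupp.single_add]
    rfl
  map_smul' a t := by
    unfold vS
    rw [RingHom.id_apply, Finset.smul_sum]
    refine Finset.sum_congr rfl fun n _ => ?_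
    rw [Finsupp.smul_single]
    rfl

theorem mem_BB_iff (μ : PN) : μ ∈ BB ↔ (fun v => μ (rat v)) ∈ DB := by
  constructor
  · rintro ⟨-, hμ⟩ N
    set S := Finset.range N with hS
    set f : (S → ℝ) →ₗ[ℝ] XX μ := (ic μ).comp (vSL S) with hf
    have hker : LinearMap.ker f = ⊥ := by
      rw [LinearMap.ker_eq_bot']
      intro t ht
      have h1 : μ (vS S t) = 0 := by
        rw [← norm_ic]
        have : ic μ (vS S t) = 0 := ht
        rw [this, norm_zero]
      have h2 := hμ _ h1
      funext n
      have h3 := vS_apply S t n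
      rw [h2] at h3
      exact h3.symm
    obtain ⟨K, -, hK⟩ := f.exists_antilipschitzWith hker
    obtain ⟨k, hk⟩ := exists_nat_ge (K : ℝ)
    refine ⟨k, fun v hv n => ?_⟩
    have hnn : 0 ≤ μ (rat v) := apply_nonneg μ _
    by_cases hn : n ∈ S
    · have h1 := hK.le_mul_dist (fun m : S => (v m : ℝ)) 0
      rw [map_zero, dist_zero_right, dist_zero_right] at h1
      have h2 : f (fun m : S => (v m : ℝ)) = ic μ (rat v) := by
        have h3 : vS S (fun m : S => (v m : ℝ)) = rat v := by
          have h4 : (rat v).support ⊆ S := Finsupp.support_mapRange.trans hv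
          have h5 := vS_of_support h4
          rw [← h5]
          congr 1
        show ic μ (vS S (fun m : S => (v m : ℝ))) = _
        rw [h3]
      rw [h2, norm_ic] at h1
      have h6 := norm_le_pi_norm (fun m : S => (v m : ℝ)) ⟨n, hn⟩
      rw [Real.norm_eq_abs] at h6
      refine h6.trans (h1.trans ?_)
      exact mul_le_mul_of_nonneg_right hk hnn
    · have h1 : v n = 0 := by
        by_contra h
        exact hn (hv (Finsupp.mem_support_iff.2 h))
      rw [h1, Rat.cast_zero, abs_zero]
      positivity
  · intro h
    have hμ : ∀ x : ℕ →₀ ℝ, μ x = 0 → x = 0 := by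
      intro x hx
      obtain ⟨N, hN⟩ := x.support.exists_nat_subset_range
      obtain ⟨k, hk⟩ := h N
      set S := Finset.range N with hS
      have h1 : ∀ (t : S → ℝ) (n : S), |t n| ≤ k * ‖ic μ (vS S t)‖ := by
        intro t n
        induction t using (dense_q S).induction_on with
        | hp =>
          exact isClosed_le (continuous_apply n).abs
            (continuous_const.mul (continuous_vS (ic μ) S).norm)
        | ih q =>
          rw [vS_rat, norm_ic]
          classical
          have h2 := hk (∑ n : S, Finsupp.single (n : ℕ) (q n)) (by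
            intro m hm
            by_contra hmS
            rw [Finsupp.mem_support_iff, Finsupp.finsetSum_apply] at hm
            apply hm
            refine Finset.sum_eq_zero fun j _ => ?_
            rw [Finsupp.single_apply, if_neg]
            intro hj
            exact hmS (hj ▸ j.2)) n
          have h3 : (∑ n : S, Finsupp.single (n : ℕ) (q n)) (n : ℕ) = q n := by
            rw [Finsupp.finsetSum_apply, Finset.sum_eq_single n]
            · simp
            · intro m _ hm
              rw [Finsupp.single_apply, if_neg]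
              intro hj
              exact hm (Subtype.ext hj)
            · intro hh
              exact absurd (Finset.mem_univ n) hh
          rw [h3] at h2
          exact h2
      ext n
      by_cases hn : n ∈ S
      · have h2 := h1 (fun m => x m) ⟨n, hn⟩
        rw [vS_of_support hN, norm_ic, hx, mul_zero] at h2
        exact abs_nonpos_iff.1 h2
      · have : n ∉ x.support := fun hh => hn (hN hh)
        rw [Finsupp.notMem_support_iff.1 this]
        rfl
    exact ⟨not_fin_of_norm hμ, hμ⟩

/-- the universal space is infinite-dimensional -/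
theorem uni_inf : ¬ FiniteDimensional ℝ (Sp uni.sn) := by
  intro h
  have hT : (fun _ => true : List ℕ → Bool) ∈ IF := ⟨fun _ => 0, fun _ => rfl⟩
  obtain ⟨e⟩ := theta_iso hT
  apply theta_mem_PInf (fun _ => true)
  exact LinearEquiv.finiteDimensional e.symm.toLinearEquiv

theorem analytic_PInf {G : Type} [NormedAddCommGroup G] [NormedSpace ℝ G] [CompleteSpace G]
    [SeparableSpace G] (hG : ¬ FiniteDimensional ℝ G) : AnalyticSet (isoClass PInf G) := by
  apply analytic_iso G PInf Set.univ MeasurableSet.univ
  rintro μ ⟨e⟩
  constructor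
  · intro _
    trivial
  · intro _ h
    apply hG
    have : FiniteDimensional ℝ (XX μ) := h
    exact LinearEquiv.finiteDimensional e.toLinearEquiv

theorem analytic_BB {G : Type} [NormedAddCommGroup G] [NormedSpace ℝ G] [CompleteSpace G]
    [SeparableSpace G] : AnalyticSet (isoClass BB G) :=
  analytic_iso G BB DB measurable_DB fun μ _ => mem_BB_iff μ

instance : T2Space PN := by
  refine T2Space.of_injective_continuous (f := fun (μ : PN) (v : ℕ →₀ ℚ) => μ (rat v)) ?_
    continuous_induced_dom
  intro μ ν h
  have h1 : ∀ v, μ (rat v) = ν (rat v) := fun v => congrFun h v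
  ext x
  have h2 := rat_ineq (ic μ) (ic ν) 1 (fun v => by rw [norm_ic, norm_ic, one_mul, h1]) x
  have h3 := rat_ineq (ic ν) (ic μ) 1 (fun v => by rw [norm_ic, norm_ic, one_mul, h1]) x
  rw [norm_ic, norm_ic, one_mul] at h2 h3
  exact le_antisymm h2 h3

theorem compl_not_analytic {J : Set PN} (hJ : ∀ T, theta T ∈ J) :
    ¬ AnalyticSet (isoClass J (Sp uni.sn))ᶜ := by
  intro h
  let th : (List ℕ → Bool) → J := fun T => ⟨theta T, hJ T⟩
  have hth : Continuous th := continuous_theta.subtype_mk hJ
  have h2 : th ⁻¹' (isoClass J (Sp uni.sn))ᶜ = IFᶜ := by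
    rw [Set.preimage_compl]
    congr 1
    ext T
    constructor
    · intro hT
      by_contra hne
      exact theta_not_iso hne hT
    · intro hT
      exact theta_iso hT
  have : PolishSpace (List ℕ → Bool) := {}
  have h3 := h.preimage hth
  rw [h2] at h3
  exact not_analytic h3

end Pool.Agent.H967GU
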